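import Pool.Agent.N145.SX.Stm3
import Pool.Agent.N603.SX.ERASE

/-!
# Project SX (helper145), COV (helper459): fibrations in curves of genus at most one from
proportional traces

The first part follows `Pool.Agent.N603.SX.ERASE`.
-/

set_option autoImplicit false
set_option linter.overlappingInstances false
set_option linter.unusedSectionVars false
set_option linter.unusedVariables false

open Polynomial FF IntermediateField Module

namespace Pool.Agent.N459.SX

open Pool.Agent.W603.LV Pool.Agent.W619.PQ Pool.Agent.N145.PC Pool.Agent.N145.PL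
open Pool.Agent.Y184.NT (trForm)
open Pool.Agent.N145.SX

/-- the trace only depends on the subfield -/
theorem trace_eq_of_mem {L B K : Type} [Field L] [Field B] [Field K] [Algebra L K] [Algebra B K]
    (M : IntermediateField L K) (M' : IntermediateField B K) (h : ∀ z, z ∈ M ↔ z ∈ M') (z : K) :
    ((Algebra.trace M' K z : M') : K) = ((Algebra.trace M K z : M) : K) := by
  let e : M ≃+* M' :=
    { toFun := fun a => ⟨a, (h a).1 a.2⟩
      invFun := fun a => ⟨a, (h a).2 a.2⟩
      left_inv := fun a => rfl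
      right_inv := fun a => rfl
      map_mul' := fun a b => rfl
      map_add' := fun a b => rfl }
  have h1 := Algebra.trace_eq_of_ringEquiv e (by
    ext a
    rfl) z
  rw [← h1]
  rfl

/-- elements algebraic over an algebraically closed field -/
theorem mem_range_of_alg {Λ F : Type} [Field Λ] [Field F] [Algebra Λ F] [IsAlgClosed Λ] {x : F}
    (hx : IsAlgebraic Λ x) : ∃ y : Λ, algebraMap Λ F y = x := by
  have hint : IsIntegral Λ x := hx.isIntegral
  have h1 := IsAlgClosed.degree_eq_one_of_irreducible Λ (minpoly.irreducible hint)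
  exact minpoly.mem_range_of_degree_eq_one Λ x h1

/-- the ring homomorphism into the algebraic closure -/
theorem exists_hom {K L : Type} [Field K] [Algebra ℂ K] [Field L] [Algebra ℂ L] [Algebra L K]
    (E : IntermediateField ℂ K) (N : IntermediateField ℂ L)
    (h1 : ∀ z ∈ N, IsAlgebraic E (algebraMap L K z)) (Λ F : Type) [Field Λ] [Field F]
    [Algebra E Λ] [Algebra Λ F] [Algebra K F] [IsAlgClosed Λ]
    (hcomp : ∀ z : E, algebraMap Λ F (algebraMap E Λ z) = algebraMap K F (z : K)) :
    ∃ j : N →+* Λ, ∀ z : N, algebraMap Λ F (j z) = algebraMap K F (algebraMap L K (z : L)) := by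
  have h2 : ∀ z : N, ∃ y : Λ, algebraMap Λ F y = algebraMap K F (algebraMap L K (z : L)) := by
    intro z
    obtain ⟨p, hp0, hp⟩ := h1 z z.2
    refine mem_range_of_alg ⟨p.map (algebraMap E Λ), ?_, ?_⟩
    · rw [Ne, Polynomial.map_eq_zero]
      exact hp0
    · rw [Polynomial.aeval_def, Polynomial.eval₂_map]
      have h4 : (algebraMap Λ F).comp (algebraMap E Λ) = (algebraMap K F).comp (algebraMap E K) :=
        RingHom.ext fun e => hcomp e
      rw [h4, ← Polynomial.hom_eval₂]
      rw [Polynomial.aeval_def] at hp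
      rw [hp, map_zero]
  choose f hf using h2
  have hinj := (algebraMap Λ F).injective
  exact ⟨{ toFun := f
           map_one' := hinj (by rw [hf, map_one]; simp)
           map_mul' := fun a b => hinj (by rw [hf, map_mul, hf, hf]; simp)
           map_zero' := hinj (by rw [hf, map_zero]; simp)
           map_add' := fun a b => hinj (by rw [hf, map_add, hf, hf]; simp) }, hf⟩

/-- the algebraic closure of one of two fields, each algebraic over the other one -/
theorem alg_of_alg {N E Λ : Type} [Field N] [Field E] [Field Λ] [Algebra N Λ] [Algebra E Λ]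
    [Algebra.IsAlgebraic E Λ] (h : ∀ e : E, IsAlgebraic N (algebraMap E Λ e)) :
    Algebra.IsAlgebraic N Λ := by
  obtain ⟨A, hA⟩ : ∃ A : IntermediateField N Λ, A = algebraicClosure N Λ := ⟨_, rfl⟩
  have hAalg : Algebra.IsAlgebraic N A := by
    rw [hA]
    infer_instance
  have hEA : ∀ e : E, algebraMap E Λ e ∈ A := by
    intro e
    rw [hA, mem_algebraicClosure_iff]
    exact h e
  let i : E →+* A :=
    { toFun := fun e => ⟨algebraMap E Λ e, hEA e⟩
      map_one' := Subtype.ext (map_one _)
      map_mul' := fun a b => Subtype.ext (map_mul _ _ _)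
      map_zero' := Subtype.ext (map_zero _)
      map_add' := fun a b => Subtype.ext (map_add _ _ _) }
  refine ⟨fun y => ?_⟩
  obtain ⟨p, hp0, hp⟩ := Algebra.IsAlgebraic.isAlgebraic (R := E) y
  have h1 : IsAlgebraic A y := by
    refine ⟨p.map i, ?_, ?_⟩
    · rw [Ne, Polynomial.map_eq_zero]
      exact hp0
    · rw [Polynomial.aeval_def, Polynomial.eval₂_map]
      rw [Polynomial.aeval_def] at hp
      exact hp
  exact h1.restrictScalars N

/-- the geometric generic fibre -/
theorem geoFib_of {K L : Type} [Field K] [Algebra ℂ K] [Field L] [Algebra ℂ L] [Algebra L K]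
    [IsScalarTower ℂ L K] (E : IntermediateField ℂ K) (N : IntermediateField ℂ L)
    (h1 : ∀ z ∈ N, IsAlgebraic E (algebraMap L K z)) (h2 : ∀ z ∈ E, IsAlgebraic N z)
    (M : IntermediateField L K) (hM : M = IntermediateField.adjoin L (E : Set K))
    (Λ F : Type) [Field Λ] [Field F] [Algebra E Λ] [Algebra Λ F] [Algebra K F] [IsAlgClosed Λ]
    [Algebra.IsAlgebraic E Λ]
    (hcomp : ∀ z : E, algebraMap Λ F (algebraMap E Λ z) = algebraMap K F (z : K))
    (FE : IntermediateField Λ F)
    (hFE : FE = IntermediateField.adjoin Λ (algebraMap K F '' (M : Set K)))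
    (hFF : IsFF Λ FE) (hglo : GLO Λ FE) : GeoFib L N := by
  obtain ⟨j, hj⟩ := exists_hom E N h1 Λ F hcomp
  let iN : Algebra N Λ := j.toAlgebra
  let iF : Algebra N FE := ((algebraMap Λ FE).comp j).toAlgebra
  have hT : IsScalarTower N Λ FE := IsScalarTower.of_algebraMap_eq fun z => rfl
  have halg : Algebra.IsAlgebraic N Λ := by
    refine alg_of_alg (E := E) fun e => ?_
    obtain ⟨p, hp0, hp⟩ := h2 e e.2
    refine ⟨p, hp0, (algebraMap Λ F).injective ?_⟩
    rw [Polynomial.aeval_def] at hp ⊢
    rw [Polynomial.hom_eval₂, map_zero, hcomp]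
    have h4 : (algebraMap Λ F).comp (algebraMap N Λ) = (algebraMap K F).comp (algebraMap N K) :=
      RingHom.ext fun z => hj z
    rw [h4, ← Polynomial.hom_eval₂, hp, map_zero]
  have hmem : ∀ z : L, algebraMap K F (algebraMap L K z) ∈ FE := by
    intro z
    rw [hFE]
    exact IntermediateField.subset_adjoin _ _ ⟨_, M.algebraMap_mem z, rfl⟩
  let ψ : L →ₐ[N] FE :=
    { toFun := fun z => ⟨algebraMap K F (algebraMap L K z), hmem z⟩
      map_one' := Subtype.ext (by simp)
      map_mul' := fun a b => Subtype.ext (by simp)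
      map_zero' := Subtype.ext (by simp)
      map_add' := fun a b => Subtype.ext (by simp)
      commutes' := fun z => Subtype.ext (hj z).symm }
  refine ⟨Λ, FE, inferInstance, inferInstance, iN, iF, inferInstance, hT, inferInstance, halg, hFF,
    ψ, ?_, hglo⟩
  have h3 : (IntermediateField.adjoin Λ (Set.range ψ)).map FE.val =
      (⊤ : IntermediateField Λ FE).map FE.val := by
    rw [IntermediateField.adjoin_map, ← AlgHom.fieldRange_eq_map,
      IntermediateField.fieldRange_val]
    apply le_antisymm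
    · rw [IntermediateField.adjoin_le_iff]
      rintro _ ⟨_, ⟨y, rfl⟩, rfl⟩
      exact hmem y
    · obtain ⟨G, hG⟩ : ∃ G, G = IntermediateField.adjoin Λ (FE.val '' Set.range ψ) := ⟨_, rfl⟩
      rw [← hG]
      conv_lhs => rw [hFE]
      rw [IntermediateField.adjoin_le_iff]
      rintro _ ⟨y, hy, rfl⟩
      change algebraMap K F y ∈ G
      have hy' : y ∈ IntermediateField.adjoin L (E : Set K) := by
        rw [← hM]
        exact hy
      clear hy
      induction hy' using IntermediateField.adjoin_induction with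
      | mem x hx =>
        have h4 := hcomp ⟨x, hx⟩
        rw [← h4]
        exact G.algebraMap_mem _
      | algebraMap x =>
        rw [hG]
        exact IntermediateField.subset_adjoin _ _ ⟨ψ x, ⟨x, rfl⟩, rfl⟩
      | add x y hx hy ihx ihy =>
        rw [map_add]
        exact add_mem ihx ihy
      | inv x hx ih =>
        rw [map_inv₀]
        exact inv_mem ih
      | mul x y hx hy ihx ihy =>
        rw [map_mul]
        exact mul_mem ihx ihy
  exact IntermediateField.map_injective _ h3

set_option maxHeartbeats 4000000 in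
/-- **Fibrations in curves of genus at most one.** -/
theorem COV (hclosed : S_CLOSED) (hfib1 : S_FIB1) : S_COV := by
  classical
  intro K _ _ hess n E C _ hsup hE hK x hx τ hτ D0 hD0 L _ _ _ _ _ h hval S0 htr N hN1 hN2
  obtain ⟨hcl1, -, hcl3⟩ := hclosed K n E C hsup hE hK
  -- the image in the product with the other factor
  obtain ⟨M, hM⟩ : ∃ M, M = IntermediateField.adjoin L (E : Set K) := ⟨_, rfl⟩
  have hle : E ≤ M.restrictScalars ℂ := by
    intro y hy
    rw [mem_restrictScalars, hM]
    exact IntermediateField.subset_adjoin L _ hy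
  have hfinM : FiniteDimensional (M.restrictScalars ℂ : IntermediateField ℂ K) K := by
    have h1 : FiniteDimensional M K := inferInstance
    exact h1
  obtain ⟨E', hE'⟩ : ∃ E' : IntermediateField E K,
      E' = IntermediateField.extendScalars hle := ⟨_, rfl⟩
  have hE'm : ∀ z : K, z ∈ M ↔ z ∈ E' := by
    intro z
    rw [hE', IntermediateField.mem_extendScalars, mem_restrictScalars]
  have hfinE : FiniteDimensional E' K := by
    have h1 : FiniteDimensional M K := inferInstance
    rw [hE']
    exact h1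
  obtain ⟨t, ξ, ht, hξM, hξ, hZ, DE, Ef, hlift, hEfB, hEf⟩ :=
    exists_frame hK E hE (M.restrictScalars ℂ) hle
  -- the determinant
  have hzb : IsTranscendenceBasis ℂ (zz K x τ) :=
    Pool.Agent.N603.SX.basis_zz hE hK hx (hcl1 τ hτ)
  have hzc : ∀ j : Fin n, zz K x τ j.castSucc = (x j : K) := fun j =>
    Fin.snoc_castSucc (α := fun _ => K) _ _ _
  have hzl : zz K x τ (Fin.last n) = (τ : K) := Fin.snoc_last (α := fun _ => K) _ _
  obtain ⟨A, hA⟩ : ∃ A, A = (Matrix.of fun i j => Ef i (zz K x τ j) :
    Matrix (Fin (n + 1)) (Fin (n + 1)) K) := ⟨_, rfl⟩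
  have hAij : ∀ i j, A i j = Ef i (zz K x τ j) := by
    intro i j
    rw [hA, Matrix.of_apply]
  have hform : ∀ g : K, trForm (zz K x τ) g Ef = A.det * g := by
    intro g
    rw [hA]
    rfl
  have hdt0 : A.det ≠ 0 := by
    obtain ⟨D1, hD1⟩ := Pool.Agent.W636.PG.exists_duals ℂ K (n + 1) _ hzb
    intro h0
    have h1 := Pool.Agent.Y172.pluri_coord hZ hEf (Pool.Agent.Y184.NT.trForm_pluri (zz K x τ) 1) D1
    rw [hform, h0, zero_mul, mul_zero] at h1
    have h2 : (Matrix.of fun i j => D1 i (zz K x τ j) : Matrix (Fin (n + 1)) (Fin (n + 1)) K) =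
        1 := by
      ext i j
      rw [Matrix.of_apply, hD1, Matrix.one_apply]
    change (Matrix.of fun i j => D1 i (zz K x τ j) :
      Matrix (Fin (n + 1)) (Fin (n + 1)) K).det * 1 = 0 at h1
    rw [h2, Matrix.det_one, mul_one] at h1
    exact one_ne_zero h1
  obtain ⟨ε, hε0, hε⟩ := Pool.Agent.N145.PC.det_one (A := A) (i0 := Fin.last n) (by
    intro j hj
    obtain ⟨l, rfl⟩ := Fin.exists_castSucc_eq.2 hj
    rw [hAij, hzc]
    exact hEfB _ (x l).2)
  rw [hAij, hzl] at hε
  obtain ⟨mi, hmi⟩ : ∃ mi, mi = (A.submatrix Fin.castSucc (Fin.last n).succAbove).det := ⟨_, rfl⟩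
  rw [← hmi] at hε
  have hmi0 : mi ≠ 0 := by
    intro h1
    apply hdt0
    rw [hε, h1, mul_zero]
  have hmiM : mi ∈ M := by
    rw [hmi, Matrix.det_apply]
    refine sum_mem fun σ _ => ?_
    rw [Units.smul_def, zsmul_eq_mul]
    refine mul_mem (intCast_mem _ _) (prod_mem fun j _ => ?_)
    rw [Matrix.submatrix_apply, hAij, Fin.succAbove_last, hzc]
    have h3 : (x j : K) ∈ M.restrictScalars ℂ := hle (x j).2
    have h4 := hlift (σ j).castSucc ⟨_, h3⟩
    change Ef (σ j).castSucc (x j : K) = _ at h4
    rw [h4]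
    exact (DE (σ j).castSucc ⟨_, h3⟩).2
  -- the value
  obtain ⟨a, ha⟩ := hval M 1 (fun i => (DE i : Derivation ℂ M M)) Ef (fun i g => hlift i g)
  rw [hform, hε, mul_one, mul_one] at ha
  have hc : ((ε : K) * mi) ∈ M := mul_mem (intCast_mem _ _) hmiM
  have hc0 : (ε : K) * mi ≠ 0 := by
    intro h6
    rcases mul_eq_zero.1 h6 with h7 | h7
    · have : CharZero K := charZero_of_injective_algebraMap (algebraMap ℂ K).injective
      exact hε0 (by exact_mod_cast h7)
    · exact hmi0 h7
  obtain ⟨v, hv⟩ : ∃ v : M, v = a / ⟨(ε : K) * mi, hc⟩ := ⟨_, rfl⟩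
  have hvK : (v : K) = (a : K) / ((ε : K) * mi) := by
    rw [hv]
    rfl
  have hEv : Ef (Fin.last n) (τ : K) = (v : K) * h := by
    rw [hvK]
    have ha' : (ε : K) * Ef (Fin.last n) (τ : K) * mi = (a : K) * h := ha
    rw [div_mul_eq_mul_div, eq_div_iff hc0]
    linear_combination ha'
  have hfin : ∀ φ ∈ HL D0 (∅ : Set (Place ℂ C)), ∃ c : E,
      ((Algebra.trace E' K (Ef (Fin.last n) (τ : K) * (φ : K)) : E') : K) =
        (c : K) * ((v : K) * S0) := by
    intro φ hφ
    obtain ⟨c, hcc⟩ := htr φ hφ
    refine ⟨c, ?_⟩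
    rw [trace_eq_of_mem M E' hE'm, hEv, mul_assoc]
    have h3 : ((Algebra.trace M K (h * (φ : K)) : M) : K) = (c : K) * S0 := by
      subst hM
      exact hcc
    have h4 : (v : K) * (h * (φ : K)) = v • (h * (φ : K)) := rfl
    rw [h4, map_smul, smul_eq_mul]
    change (v : K) * ((Algebra.trace M K (h * (φ : K)) : M) : K) = _
    rw [h3]
    ring
  -- the fibre
  let Ω := AlgebraicClosure K
  let Λ : IntermediateField E Ω := algebraicClosure E Ω
  have hΛ : IsAlgClosed Λ := (algebraicClosure.isAlgClosure E Ω).isAlgClosed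
  have hΛalg : Algebra.IsAlgebraic E Λ := inferInstance
  let FF : IntermediateField Λ Ω := IntermediateField.adjoin Λ (Set.range (algebraMap K Ω))
  have hTL : IsScalarTower ℂ E Ω := IsScalarTower.of_algebraMap_eq fun z => by
    rw [IsScalarTower.algebraMap_apply ℂ K Ω]
    rfl
  have hTΛ : IsScalarTower ℂ Λ Ω := IsScalarTower.of_algebraMap_eq fun z => by
    rw [IsScalarTower.algebraMap_apply ℂ E Ω]
    rfl
  let φ0 : K →+* FF :=
    { toFun := fun z => ⟨algebraMap K Ω z, IntermediateField.subset_adjoin _ _ ⟨z, rfl⟩⟩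
      map_one' := Subtype.ext (map_one _)
      map_mul' := fun a b => Subtype.ext (map_mul _ _ _)
      map_zero' := Subtype.ext (map_zero _)
      map_add' := fun a b => Subtype.ext (map_add _ _ _) }
  let iKF : Algebra K FF := φ0.toAlgebra
  have hKF : ∀ z : K, ((algebraMap K FF z : FF) : Ω) = algebraMap K Ω z := fun z => rfl
  have hT2 : IsScalarTower ℂ K FF := IsScalarTower.of_algebraMap_eq fun z => by
    apply Subtype.ext
    rw [hKF, ← IsScalarTower.algebraMap_apply ℂ K Ω]
    rfl
  have hT5 : IsScalarTower ℂ Λ FF := inferInstance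
  have hgenF : IntermediateField.adjoin Λ (Set.range (algebraMap K FF)) = ⊤ := by
    have h1 : (IntermediateField.adjoin Λ (Set.range (algebraMap K FF))).map FF.val =
        (⊤ : IntermediateField Λ FF).map FF.val := by
      rw [IntermediateField.adjoin_map, ← AlgHom.fieldRange_eq_map,
        IntermediateField.fieldRange_val]
      congr 1
      ext z
      simp only [Set.mem_image, Set.mem_range]
      constructor
      · rintro ⟨_, ⟨y, rfl⟩, rfl⟩
        exact ⟨y, rfl⟩
      · rintro ⟨y, rfl⟩
        exact ⟨_, ⟨y, rfl⟩, rfl⟩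
    exact IntermediateField.map_injective _ h1
  have hT4 : IsScalarTower E Λ FF := IsScalarTower.of_algebraMap_eq fun z =>
    Subtype.ext rfl
  have hLK : Algebra.trdeg E K = (1 : ℕ) := Pool.Agent.Y174.trdeg_LK (r := 1) hE hK
  have htrF : Algebra.trdeg Λ FF = (1 : ℕ) :=
    Pool.Agent.Y174.trdeg_F (L := E) (K := K) hLK hgenF
  have hessF : Algebra.EssFiniteType Λ FF := Pool.Agent.Y174.ess_F (k := ℂ) (K := K) hess hgenF
  have hFF : IsFF Λ FF := ⟨hessF, by rw [htrF]; simp⟩
  obtain ⟨hres1, hres2⟩ := hfib1 K n E C hsup hE hK τ hτ D0 hD0 E' t ht ξ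
    ((hE'm ξ).1 hξM) hξ hZ Ef hEf ((v : K) * S0) hfin Λ FF (fun z hz => Subtype.ext rfl) hgenF
    (IntermediateField.adjoin Λ (algebraMap K FF '' (E' : Set K))) rfl
  have hsets : (M : Set K) = (E' : Set K) := Set.ext hE'm
  exact geoFib_of E N hN1 hN2 M hM Λ FF (fun z => Subtype.ext rfl)
    (IntermediateField.adjoin Λ (algebraMap K FF '' (E' : Set K))) (by rw [hsets]) hres1 hres2

end Pool.Agent.N459.SX
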